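import Pool.Agent.H75.L.W988.WD.Defs

/-!
Sums of isometries between subspaces with orthogonal initial and final spaces (task ZSUM of project WD).
-/

set_option autoImplicit false
open scoped InnerProductSpace Topology
open Filter

namespace Pool.Agent.W978.WD.ZSUM

open Pool.Agent.W988.WD

section
variable {H : Type} [NormedAddCommGroup H] [InnerProductSpace ℂ H] [CompleteSpace H]

theorem norm_le_one {V : H →L[ℂ] H} (h : V * star V * V = V) : ‖V‖ ≤ 1 := by
  have h1 : ‖star V * V‖ = ‖V‖ * ‖V‖ := CStarRing.norm_star_mul_self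
  have h2 : star (star V * V) * (star V * V) = star V * V := by
    rw [star_mul, star_star]
    calc star V * V * (star V * V) = star V * (V * star V * V) := by simp only [mul_assoc]
      _ = star V * V := by rw [h]
  have h3 : ‖star (star V * V) * (star V * V)‖ = ‖star V * V‖ * ‖star V * V‖ :=
    CStarRing.norm_star_mul_self
  rw [h2, h1] at h3
  by_contra hc
  push Not at hc
  have h4 : 1 < ‖V‖ * ‖V‖ := by nlinarith
  nlinarith

theorem star_inner (T : H →L[ℂ] H) (ξ η : H) : ⟪star T η, ξ⟫_ℂ = ⟪η, T ξ⟫_ℂ := by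
  rw [ContinuousLinearMap.star_eq_adjoint, ContinuousLinearMap.adjoint_inner_left]

theorem lim_right {ι : Type} {U : Filter ι} [U.NeBot] {z : ι → (H →L[ℂ] H)} {V T c : H →L[ℂ] H}
    (h : WLim U z V) (hz : ∀ᶠ i in U, z i * T = c) : V * T = c := by
  ext ξ
  apply ext_inner_left ℂ
  intro η
  have h1 := h (T ξ) η
  have h2 : Tendsto (fun i => ⟪η, z i (T ξ)⟫_ℂ) U (𝓝 ⟪η, c ξ⟫_ℂ) := by
    apply tendsto_const_nhds.congr'
    filter_upwards [hz] with i hi
    rw [← hi]; rfl
  exact tendsto_nhds_unique h1 h2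

theorem lim_left {ι : Type} {U : Filter ι} [U.NeBot] {z : ι → (H →L[ℂ] H)} {V T c : H →L[ℂ] H}
    (h : WLim U z V) (hz : ∀ᶠ i in U, T * z i = c) : T * V = c := by
  ext ξ
  apply ext_inner_left ℂ
  intro η
  have h1 := h ξ (star T η)
  rw [star_inner] at h1
  have h2 : Tendsto (fun i => ⟪star T η, z i ξ⟫_ℂ) U (𝓝 ⟪η, c ξ⟫_ℂ) := by
    apply tendsto_const_nhds.congr'
    filter_upwards [hz] with i hi
    rw [star_inner, ← hi]; rfl
  exact tendsto_nhds_unique h1 h2

theorem lim_vec {ι : Type} {U : Filter ι} [U.NeBot] {z : ι → (H →L[ℂ] H)} {V : H →L[ℂ] H}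
    (h : WLim U z V) {ξ : H} (hz : ∀ i, z i ξ = 0) : V ξ = 0 := by
  apply ext_inner_left ℂ
  intro η
  have h1 := h ξ η
  simp only [hz, inner_zero_right] at h1 ⊢
  exact tendsto_nhds_unique h1 tendsto_const_nhds

theorem lim_vec' {ι : Type} {U : Filter ι} [U.NeBot] {z : ι → (H →L[ℂ] H)} {V : H →L[ℂ] H}
    (h : WLim U z V) {ξ : H} (hz : ∀ i, star (z i) ξ = 0) : star V ξ = 0 := by
  apply ext_inner_right ℂ
  intro η
  have h1 := h η ξ
  rw [star_inner, inner_zero_left]
  simp only [← star_inner, hz, inner_zero_left] at h1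
  rw [star_inner] at h1
  exact tendsto_nhds_unique h1 tendsto_const_nhds

end

theorem p_ZSUM (h : S_CPT) : S_ZSUM := by
  classical
  intro H _ _ _ N ι v hN ha hb hc
  set z : Finset ι → (H →L[ℂ] H) := fun F => ∑ i ∈ F, v i with hz
  have e1 : ∀ (F : Finset ι) (i : ι), i ∈ F → z F * (star (v i) * v i) = v i := by
    intro F i hi
    rw [hz]
    simp only
    rw [Finset.sum_mul, Finset.sum_eq_single_of_mem i hi, ← mul_assoc, ha]
    intro j _ hj
    rw [← mul_assoc, hc j i hj, zero_mul]
  have e2 : ∀ (F : Finset ι) (i : ι), i ∈ F → v i * star (v i) * z F = v i := by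
    intro F i hi
    rw [hz]
    simp only
    rw [Finset.mul_sum, Finset.sum_eq_single_of_mem i hi, ha]
    intro j _ hj
    rw [mul_assoc, hb i j hj.symm, mul_zero]
  have e3 : ∀ F : Finset ι, star (z F) * z F = ∑ i ∈ F, star (v i) * v i := by
    intro F
    rw [hz]
    simp only
    rw [Finset.mul_sum]
    apply Finset.sum_congr rfl
    intro i hi
    rw [star_sum, Finset.sum_mul, Finset.sum_eq_single_of_mem i hi]
    intro j _ hj
    exact hb j i hj
  have e4 : ∀ F : Finset ι, z F * star (z F) * z F = z F := by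
    intro F
    rw [mul_assoc, e3, Finset.mul_sum]
    exact Finset.sum_congr rfl fun i hi => e1 F i hi
  obtain ⟨U, hU⟩ : ∃ U : Ultrafilter (Finset ι), (U : Filter (Finset ι)) ≤ atTop :=
    ⟨Ultrafilter.of atTop, Ultrafilter.of_le _⟩
  obtain ⟨h1, h2⟩ := h H (Finset ι) U z
  obtain ⟨V, _, hV⟩ := h1 1 fun F => norm_le_one (e4 F)
  have hVN : V ∈ N := h2 V hV N fun F => sum_mem fun i _ => hN i
  have ev : ∀ i : ι, ∀ᶠ F in (U : Filter (Finset ι)), i ∈ F := by
    intro i
    apply hU
    filter_upwards [eventually_ge_atTop ({i} : Finset ι)] with F hF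
    exact hF (Finset.mem_singleton_self i)
  have f1 : ∀ i, V * (star (v i) * v i) = v i := fun i =>
    lim_right hV ((ev i).mono fun F hF => e1 F i hF)
  have f2 : ∀ i, v i * star (v i) * V = v i := fun i =>
    lim_left hV ((ev i).mono fun F hF => e2 F i hF)
  have f3 : ∀ ξ : H, (∀ i, v i ξ = 0) → V ξ = 0 := by
    intro ξ hξ
    apply lim_vec hV
    intro F
    rw [hz]
    simp only [_root_.sum_apply]
    exact Finset.sum_eq_zero fun i _ => hξ i
  have f4 : ∀ ξ : H, (∀ i, star (v i) ξ = 0) → star V ξ = 0 := by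
    intro ξ hξ
    apply lim_vec' hV
    intro F
    rw [hz]
    simp only [star_sum, _root_.sum_apply]
    exact Finset.sum_eq_zero fun i _ => hξ i
  refine ⟨V, hVN, ?_, f1, f2, f3, f4⟩
  -- V is an isometry between subspaces
  have g1 : ∀ i, star V * v i = star (v i) * v i := by
    intro i
    have := congrArg star (f2 i)
    rw [star_mul, star_mul, star_star] at this
    calc star V * v i = star V * (v i * star (v i) * v i) := by rw [ha]
      _ = star V * (v i * star (v i)) * v i := by simp only [mul_assoc]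
      _ = star (v i) * v i := by rw [this]
  have g2 : ∀ i, (V * star V * V) * (star (v i) * v i) = V * (star (v i) * v i) := by
    intro i
    calc (V * star V * V) * (star (v i) * v i) = V * (star V * (V * (star (v i) * v i))) := by
          simp only [mul_assoc]
      _ = V * (star V * v i) := by rw [f1]
      _ = _ := by rw [g1]
  set T := V * star V * V - V with hT
  have t1 : ∀ i, T * (star (v i) * v i) = 0 := by
    intro i
    rw [hT, sub_mul, g2, sub_self]
  have t2 : ∀ ξ : H, (∀ i, v i ξ = 0) → T ξ = 0 := by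
    intro ξ hξ
    have := f3 ξ hξ
    rw [hT]
    simp [this]
  have hK : LinearMap.ker (T : H →ₗ[ℂ] H) = ⊤ := by
    have : CompleteSpace (LinearMap.ker (T : H →ₗ[ℂ] H)) :=
      (ContinuousLinearMap.isClosed_ker T).completeSpace_coe
    rw [← Submodule.orthogonal_eq_bot_iff, eq_bot_iff]
    intro ξ hξ
    have k1 : ∀ i, v i ξ = 0 := by
      intro i
      have k2 : ∀ η : H, (star (v i) * v i) η ∈ LinearMap.ker (T : H →ₗ[ℂ] H) := by
        intro η
        rw [LinearMap.mem_ker]
        have := congrArg (fun A : H →L[ℂ] H => A η) (t1 i)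
        simpa using this
      have k3 : (star (v i) * v i) ξ = 0 := by
        apply ext_inner_left ℂ
        intro η
        have k4 := (Submodule.mem_orthogonal _ _).1 hξ _ (k2 η)
        rw [inner_zero_right]
        have k5 : star (star (v i) * v i) = star (v i) * v i := by
          rw [star_mul, star_star]
        rw [← star_inner, k5]
        exact k4
      have k6 : v i ξ = (v i * (star (v i) * v i)) ξ := by
        rw [← mul_assoc, ha]
      rw [k6]
      change v i ((star (v i) * v i) ξ) = 0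
      rw [k3, map_zero]
    have k7 : ξ ∈ LinearMap.ker (T : H →ₗ[ℂ] H) := t2 ξ k1
    have k8 := (Submodule.mem_orthogonal _ _).1 hξ _ k7
    rw [Submodule.mem_bot]
    exact inner_self_eq_zero.1 k8
  have hT0 : T = 0 := by
    ext ξ
    have : ξ ∈ LinearMap.ker (T : H →ₗ[ℂ] H) := by rw [hK]; trivial
    exact this
  exact sub_eq_zero.1 hT0

end Pool.Agent.W978.WD.ZSUM
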